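import Mathlib

set_option autoImplicit false

namespace Pool.Agent.Results.MP_a2c218_gt.Main

open Set Filter

def Cov {X : Type} [TopologicalSpace X] (P : Set X → Prop) (𝒰 : Set (Set X)) : Prop :=
  (∀ U ∈ 𝒰, IsOpen U) ∧ univ ∉ 𝒰 ∧ ∀ K, P K → ∃ U ∈ 𝒰, K ⊆ U

def Lind {X : Type} [TopologicalSpace X] (P : Set X → Prop) : Prop :=
  ∀ 𝒰, Cov P 𝒰 → ∃ 𝒱 ⊆ 𝒰, 𝒱.Countable ∧ Cov P 𝒱

def pre (x : ℕ → Bool) : ℕ → List Bool
  | 0 => []
  | n + 1 => x n :: pre x n

lemma length_pre (x : ℕ → Bool) (n : ℕ) : (pre x n).length = n := by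
  induction n with
  | zero => rfl
  | succ n ih => exact congrArg (· + 1) ih

lemma pre_suf (x : ℕ → Bool) {m n : ℕ} (h : m ≤ n) : pre x m <:+ pre x n := by
  induction h with
  | refl => rfl
  | step _ ih => exact ih.trans (List.suffix_cons _ _)

abbrev top : TopologicalSpace (Option (List Bool)) where
  IsOpen U := none ∈ U → ∀ x, ∀ᶠ n in atTop, some (pre x n) ∈ U
  isOpen_univ _ _ := .of_forall fun _ => trivial
  isOpen_inter _ _ h h' hz x := (h hz.1 x).and (h' hz.2 x)
  isOpen_sUnion _ h := fun ⟨U, h1, h2⟩ x => (h U h1 h2 x).mono fun _ h => ⟨U, h1, h⟩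

lemma nwd {K : Set (Option (List Bool))} (hK : @IsCompact _ top K) (s : List Bool) :
    ∃ t, s <:+ t ∧ t ≠ s ∧ ∀ k, some k ∈ K → ¬ t <:+ k := by
  let := top
  by_contra! h
  let t (n : ℕ) : List Bool := true :: (List.replicate n false ++ s)
  have h1 {m n : ℕ} {l : List Bool} (h : t m <:+ l) (h' : t n <:+ l) : m = n := by
    wlog h2 : m ≤ n generalizing m n
    · exact (this h' h (le_of_not_ge h2)).symm
    have h3 := List.suffix_of_suffix_length_le h h' (by simpa [t])
    obtain h3 | h3 := List.suffix_cons_iff.1 h3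
    · simpa [t] using congrArg List.length h3
    obtain ⟨a, h3⟩ := h3
    have h4 := List.append_inj_left' (s₁ := a ++ true :: List.replicate m false) (by
      simpa [t] using h3) rfl
    simpa using List.eq_of_mem_replicate (h4 ▸ (by simp) : true ∈ List.replicate n false)
  choose k h2 h3 using fun n => h (t n) ((List.suffix_append _ _).trans (List.suffix_cons _ _))
    fun e => by have := congrArg List.length e; simp [t] at this; omega
  obtain ⟨T, hT⟩ := hK.elim_finite_subcover (fun n : ℕ => {y | ∀ m ≥ n, y ≠ some (k m)})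
    (fun n _ x => by
      by_cases h4 : ∃ m j, pre x j = k m
      · obtain ⟨m, j, h4⟩ := h4
        refine (eventually_gt_atTop j).mono fun i hi a _ e => ?_
        have h5 := Option.some.inj e
        cases h1 ((h4 ▸ h3 m).trans (pre_suf x hi.le)) (h5 ▸ h3 a)
        exact hi.ne (by simpa [length_pre] using congrArg List.length (h4.trans h5.symm))
      · exact .of_forall fun j m _ e => h4 ⟨m, j, Option.some.inj e⟩) fun y _ => by
      by_cases h4 : ∃ m, y = some (k m)
      · obtain ⟨m, rfl⟩ := h4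
        exact mem_iUnion.2 ⟨m + 1, fun a ha e =>
          (Nat.lt_of_succ_le ha).ne (h1 (h3 m) (Option.some.inj e ▸ h3 a))⟩
      · exact mem_iUnion.2 ⟨0, fun m _ e => h4 ⟨m, e⟩⟩
  obtain ⟨n, h4, h5⟩ := mem_iUnion₂.1 (hT (h2 (T.sup id)))
  exact h5 _ (Finset.le_sup (f := id) h4) rfl

lemma branch {s : ℕ → List Bool} (h : ∀ n, s n <:+ s (n + 1) ∧ s (n + 1) ≠ s n) :
    ∃ x, ∀ n, pre x (s n).length = s n := by
  have h1 {m n : ℕ} (h' : m ≤ n) : s m <:+ s n := by
    induction h' with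
    | refl => rfl
    | step _ ih => exact ih.trans (h _).1
  have h2 (n : ℕ) : n ≤ (s n).length := (strictMono_nat_of_lt_succ fun n =>
    (h n).1.length_le.lt_of_ne fun e => (h n).2 ((h n).1.eq_of_length e).symm).le_apply
  suffices ∀ l n, l <:+ s n → pre (fun i => (s (i + 1)).reverse.getD i false) l.length = l from
    ⟨_, fun n => this _ n List.suffix_rfl⟩
  intro l n h3
  induction l with
  | nil => rfl
  | cons a l ih =>
    obtain ⟨t, h4⟩ := List.suffix_of_suffix_length_le (h3.trans (h1 (le_max_left _ _)))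
      (h1 (le_max_right _ (l.length + 1))) (h2 _)
    rw [List.length_cons, pre, ih ((List.suffix_cons _ _).trans h3)]
    simp [← h4]

theorem result : ∃ (X : Type) (_ : TopologicalSpace X), T2Space X ∧
    Lind (X := X) Set.Finite ∧ ¬ Lind (X := X) IsCompact := by
  let := top
  have hs (l : List Bool) : IsClopen {some l} := ⟨⟨fun _ x => (eventually_gt_atTop l.length).mono
    fun n hn e => hn.ne' (Option.some.inj e ▸ length_pre x n).symm⟩, nofun⟩
  refine ⟨_, top, ⟨fun a b h => ?_⟩, fun 𝒰 h => ?_, fun h => ?_⟩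
  · obtain _ | a := a
    · obtain _ | b := b
      exacts [(h rfl).elim, ⟨_, _, (hs b).compl.2, (hs b).2, h, rfl, disjoint_compl_left⟩]
    · exact ⟨_, _, (hs a).2, (hs a).compl.2, rfl, h.symm, disjoint_compl_right⟩
  · choose U h1 h2 using fun F : Finset _ => h.2.2 _ F.finite_toSet
    exact ⟨range U, range_subset_iff.2 h1, countable_range U, forall_mem_range.2 fun F =>
      h.1 _ (h1 F), fun ⟨F, e⟩ => h.2.1 (e ▸ h1 F), fun F hF => ⟨_, ⟨hF.toFinset, rfl⟩, by
        simpa using h2 hF.toFinset⟩⟩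
  let T (K : Set (Option (List Bool))) (l : List Bool) : Prop := l = [] ∨ ∃ k, some k ∈ K ∧ l <:+ k
  have hT {K l l'} (h : l <:+ l') : T K l' → T K l :=
    Or.imp (fun e => List.suffix_nil.1 (e ▸ h)) fun ⟨k, h1, h2⟩ => ⟨k, h1, h.trans h2⟩
  let U (K : Set (Option (List Bool))) := {y | ∀ a l, y = some (a :: l) → T K l → T K (a :: l)}
  have hU {K} (l : List Bool) (h : ∀ l', l' <:+ l → some l' ∈ U K) : T K l := by
    induction l with
    | nil => exact Or.inl rfl
    | cons a l ih => exact h _ List.suffix_rfl a l rfl (ih fun _ h' =>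
        h _ (h'.trans (List.suffix_cons _ _)))
  have hn {K} (hK : IsCompact K) (s : List Bool) : ∃ t, s <:+ t ∧ t ≠ s ∧ ¬ T K t :=
    (nwd hK s).imp fun t h => ⟨h.1, h.2.1, fun h' => h'.elim (fun e => h.2.1 (e.trans
      (List.suffix_nil.1 (e ▸ h.1)).symm)) fun ⟨k, h1, h2⟩ => h.2.2 k h1 h2⟩
  obtain ⟨𝒱, h1, h2, -, -, h3⟩ := h (U '' {K | IsCompact K}) ⟨forall_mem_image.2 fun K _ _ x => by
    by_cases h1 : ∀ n, T K (pre x n)
    · exact .of_forall fun n a l e _ => Option.some.inj e ▸ h1 n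
    · obtain ⟨n, hn⟩ := not_forall.1 h1
      refine (eventually_gt_atTop n).mono fun m hm a l e h2 => (hn (hT ?_ h2)).elim
      obtain _ | m := m
      · cases e
      · exact (List.cons.inj (Option.some.inj e)).2 ▸ pre_suf x (Nat.le_of_lt_succ hm),
    fun ⟨K, hK, e⟩ => (hn hK []).elim fun t h => h.2.2 (hU t fun _ _ => e ▸ trivial),
    fun K hK => ⟨_, ⟨K, hK, rfl⟩, fun _ h a l e _ => Or.inr ⟨_, e ▸ h, List.suffix_rfl⟩⟩⟩
  obtain ⟨V, rfl⟩ := h2.exists_eq_range ((h3 ∅ isCompact_empty).imp fun _ h => h.1)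
  choose K h4 h5 using range_subset_iff.1 h1
  choose t h6 h7 h8 using fun n => hn (h4 n)
  let s : ℕ → List Bool := Nat.rec [] t
  obtain ⟨x, hx⟩ := branch (s := s) fun n => ⟨h6 n _, h7 n _⟩
  obtain ⟨_, ⟨n, rfl⟩, h9⟩ := h3 _ (Tendsto.isCompact_insert_range (x := none)
    (f := fun n => some (pre x n)) fun W hW => by
      obtain ⟨O, k1, k2, k3⟩ := mem_nhds_iff.1 hW
      exact (k2 k3 x).mono fun _ h => k1 h)
  refine h8 n (s n) (hU _ fun l hl => h5 n ▸ h9 (Or.inr ⟨l.length, congrArg some ?_⟩))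
  have k : l <:+ pre x (s (n + 1)).length := (hx (n + 1)).symm ▸ hl
  exact (List.suffix_of_suffix_length_le (pre_suf x (k.length_le.trans (length_pre x _).le)) k
    (length_pre x _).le).eq_of_length (length_pre x _)

end Pool.Agent.Results.MP_a2c218_gt.Main
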